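import Mathlib
import Pool.Agent.H59.CF3

set_option autoImplicit false

namespace Pool.Agent.Results.MP_2274bf_nt.Never

open Filter Topology Set MeasureTheory

/-- `T q n x = q_1 ⋯ q_n x mod 1`, where `q i` stands for `q_{i+1}`. -/
noncomputable def T (q : ℕ → ℕ) (n : ℕ) (x : ℝ) : ℝ := Int.fract ((∏ i ∈ Finset.range n, q i : ℕ) * x)

/-- The `Q`-distribution normal numbers: `(T q n x)_{n ≥ 0}` is uniformly distributed mod 1. -/
def DN (q : ℕ → ℕ) : Set ℝ := {x | ∀ a b : ℝ, 0 ≤ a → a ≤ b → b ≤ 1 →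
  Tendsto (fun N : ℕ => (((Finset.range N).filter fun n => a ≤ T q n x ∧ T q n x < b).card : ℝ) / N)
    atTop (𝓝 (b - a))}

/-- The Gauss map. -/
noncomputable def G (y : ℝ) : ℝ := Int.fract (1 / y)

/-- `digit y n` is the continued fraction digit `a_{n+1}` of `y`. -/
noncomputable def digit (y : ℝ) (n : ℕ) : ℕ := ⌊1 / G^[n] y⌋₊

/-- The cylinder of numbers in `(0,1)` whose continued fraction begins with `c`. -/
def cyl {k : ℕ} (c : Fin k → ℕ) : Set ℝ := {y | y ∈ Ioo (0 : ℝ) 1 ∧ ∀ i : Fin k, digit y i = c i}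

/-- The Gauss measure of a set. -/
noncomputable def gauss (A : Set ℝ) : ℝ := 1 / Real.log 2 * ∫ y in A, 1 / (1 + y)

/-- The numbers normal for the regular continued fraction expansion. -/
def NCF : Set ℝ := {x | Irrational (Int.fract x) ∧ ∀ k : ℕ, 1 ≤ k → ∀ c : Fin k → ℕ, (∀ i, 1 ≤ c i) →
  Tendsto (fun N : ℕ => (((Finset.range N).filter fun n =>
    ∀ i : Fin k, digit (Int.fract x) (n + i) = c i).card : ℝ) / N) atTop (𝓝 (gauss (cyl c)))}

lemma small : gauss (cyl fun _ : Fin 1 => 1) < 1 / 2 := by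
  have s : cyl (fun _ : Fin 1 => 1) ⊆ Icc (1 / 2 : ℝ) 1 := fun y ⟨⟨a, b⟩, c⟩ => by
    have := Nat.lt_floor_add_one (1 / y)
    rw [show ⌊1 / y⌋₊ = 1 from c 0, div_lt_iff₀ a] at this
    exact ⟨by norm_num at this; linarith, b.le⟩
  have v : volume (cyl fun _ : Fin 1 => 1) ≤ ENNReal.ofReal (1 - 1 / 2) :=
    (measure_mono s).trans_eq Real.volume_Icc
  have a := norm_setIntegral_le_of_norm_le_const (μ := volume) (C := 2 / 3)
    (f := fun y : ℝ => 1 / (1 + y)) (v.trans_lt ENNReal.ofReal_lt_top) fun y hy => by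
      have := (s hy).1
      rw [Real.norm_eq_abs, abs_of_pos (by positivity), div_le_div_iff₀ (by positivity) three_pos]
      linarith
  have b : volume.real (cyl fun _ : Fin 1 => 1) ≤ 1 - 1 / 2 :=
    ENNReal.toReal_le_of_le_ofReal (by norm_num) v
  have c := Real.log_two_gt_d9
  rw [gauss, one_div_mul_eq_div, div_lt_iff₀ (by linarith)]
  linarith [Real.le_norm_self (∫ y in cyl fun _ : Fin 1 => 1, 1 / (1 + y))]

theorem result (q : ℕ → ℕ) (hq : ∀ n, 2 ≤ q n) : (∃ x, x ∈ DN q ∧ x ∉ NCF) ∧ DN q ≠ NCF := by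
  obtain ⟨z, z0, z1, h1, h2⟩ := H59.CF.exists_z (Q := fun n => ∏ i ∈ Finset.range n, q i) (by simp)
    fun n => by rw [Finset.prod_range_succ, mul_comm]; exact Nat.mul_le_mul_left _ (hq n)
  have b : z ∉ NCF := fun ⟨_, h⟩ => by
    obtain ⟨k, hk⟩ := eventually_atTop.1 ((h 1 le_rfl (fun _ => 1) fun _ => le_rfl).eventually
      (gt_mem_nhds small))
    obtain ⟨N, a, b⟩ := h2 (k + 1)
    have c := hk N (by omega)
    rw [Int.fract_eq_self.2 ⟨z0.le, z1⟩, div_lt_iff₀ (Nat.cast_pos.2 (by omega)),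
      Finset.filter_congr (q := fun i => ⌊1 / H59.CF.G^[i] z⌋₊ = 1) fun n _ =>
        ⟨fun h => h 0, fun h i => by rw [Subsingleton.elim i 0]; exact h⟩] at c
    have := (Nat.cast_le (α := ℝ)).2 b
    push_cast at this
    linarith
  exact ⟨⟨z, h1, b⟩, fun e => b (e ▸ h1)⟩

end Pool.Agent.Results.MP_2274bf_nt.Never
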